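import Pool.Agent.Helper59.V8.Poly

/-!
# MP_ea8a26, project V8: two functions on the cycles of a permutation, one of which is constant in each step
-/

set_option autoImplicit false

namespace Pool.Agent.Helper59.V8

open Complex Finset

/-- half the cotangent of `π / n` -/
noncomputable def bet (n : ℕ) : ℝ := Real.cot (Real.pi / n) / 2

theorem bet_pos_of {n : ℕ} (hn : 3 ≤ n) : 0 < bet n ∧ 0 < Real.tan (Real.pi / n) ∧ 2 * Real.tan (Real.pi / n) * bet n = 1 := by
  have hN0 : (0 : ℝ) < n := by exact_mod_cast (by omega : 0 < n)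
  have h1 : 0 < Real.pi / n := div_pos Real.pi_pos hN0
  have h2 : Real.pi / n < Real.pi / 2 := by
    apply div_lt_div_of_pos_left Real.pi_pos (by norm_num)
    exact_mod_cast (by omega : 2 < n)
  have hs := Real.sin_pos_of_pos_of_lt_pi h1 (by linarith [Real.pi_pos])
  have hc := Real.cos_pos_of_mem_Ioo ⟨by linarith [Real.pi_pos], h2⟩
  unfold bet
  rw [Real.tan_eq_sin_div_cos, Real.cot_eq_cos_div_sin]
  refine ⟨by positivity, by positivity, ?_⟩
  field_simp

theorem bet_nonneg (n : ℕ) : 0 ≤ bet n := by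
  rcases Nat.lt_or_ge n 3 with h | h
  · have : n = 0 ∨ n = 1 ∨ n = 2 := by omega
    unfold bet
    rw [Real.cot_eq_cos_div_sin]
    rcases this with rfl | rfl | rfl <;> simp
  · exact (bet_pos_of h).1.le

/-- **Closed polygons**, the area against the energy. -/
theorem pbound {n : ℕ} (hn : 1 ≤ n) (h : ℕ → ℂ) (hh : h n = h 0) :
    |∑ i ∈ range n, ((starRingEnd ℂ) (h i) * h (i + 1)).im| ≤ bet n * ∑ i ∈ range n, normSq (h (i + 1) - h i) := by
  rcases Nat.lt_or_ge n 3 with h3 | h3
  · have : n = 1 ∨ n = 2 := by omega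
    rcases this with rfl | rfl
    · rw [Finset.sum_range_one, Finset.sum_range_one, zero_add, hh, sub_self]
      simp
      ring_nf
    · rw [Finset.sum_range_succ, Finset.sum_range_one, zero_add, hh]
      have e1 : ((starRingEnd ℂ) (h 0) * h 1).im + ((starRingEnd ℂ) (h 1) * h 0).im = 0 := by
        simp only [mul_im, conj_re, conj_im]
        ring
      rw [e1, abs_zero]
      exact mul_nonneg (bet_nonneg _) (Finset.sum_nonneg fun i _ => normSq_nonneg _)
  · obtain ⟨hb, ht, hbt⟩ := bet_pos_of h3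
    set t := Real.tan (Real.pi / n) with htd
    have h1 := poly h3 h hn le_rfl hh
    have h2 := poly h3 (fun i => (starRingEnd ℂ) (h i)) hn le_rfl (by simp only [hh])
    rw [← htd] at h1 h2
    have e1 : ∑ i ∈ range n, q t (h i) (h (i + 1)) = (∑ i ∈ range n, normSq (h (i + 1) - h i)) -
        2 * t * ∑ i ∈ range n, ((starRingEnd ℂ) (h i) * h (i + 1)).im := by
      rw [Finset.mul_sum, ← Finset.sum_sub_distrib]
      rfl
    have e2 : ∑ i ∈ range n, q t ((starRingEnd ℂ) (h i)) ((starRingEnd ℂ) (h (i + 1))) = (∑ i ∈ range n, normSq (h (i + 1) - h i)) +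
        2 * t * ∑ i ∈ range n, ((starRingEnd ℂ) (h i) * h (i + 1)).im := by
      rw [Finset.mul_sum, ← Finset.sum_add_distrib]
      refine Finset.sum_congr rfl fun i _ => ?_
      unfold q
      rw [← map_sub, normSq_conj]
      simp only [mul_im, conj_re, conj_im]
      ring
    rw [e1] at h1
    rw [e2] at h2
    rw [abs_le]
    constructor
    · have := mul_nonneg hb.le h2
      have e : bet n * ((∑ i ∈ range n, normSq (h (i + 1) - h i)) +
        2 * t * ∑ i ∈ range n, ((starRingEnd ℂ) (h i) * h (i + 1)).im) = bet n * (∑ i ∈ range n, normSq (h (i + 1) - h i)) +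
        (2 * t * bet n) * ∑ i ∈ range n, ((starRingEnd ℂ) (h i) * h (i + 1)).im := by ring
      rw [e, hbt] at this
      linarith
    · have := mul_nonneg hb.le h1
      have e : bet n * ((∑ i ∈ range n, normSq (h (i + 1) - h i)) -
        2 * t * ∑ i ∈ range n, ((starRingEnd ℂ) (h i) * h (i + 1)).im) = bet n * (∑ i ∈ range n, normSq (h (i + 1) - h i)) -
        (2 * t * bet n) * ∑ i ∈ range n, ((starRingEnd ℂ) (h i) * h (i + 1)).im := by ring
      rw [e, hbt] at this
      linarith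

/-- the area part of a step `(l, r) → (l', r')` -/
noncomputable def fa (l r l' r' : ℂ) : ℝ := ((starRingEnd ℂ) l * l').im + ((starRingEnd ℂ) r * r').im

/-- the coupling part of a step -/
noncomputable def fj (l r l' r' : ℂ) : ℝ := (r * (starRingEnd ℂ) (l' - l)).im + (l * (starRingEnd ℂ) (r' - r)).im

/-- the energy of a step -/
noncomputable def fu (l r l' r' : ℂ) : ℝ := normSq (l' - l) + normSq (r' - r)

theorem fa_sub_fj (l r l' r' : ℂ) : fa l r l' r' - fj l r l' r' = ((starRingEnd ℂ) (l + r) * (l' + r')).im := by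
  unfold fa fj
  simp only [map_add, map_sub, mul_im, add_re, add_im, sub_re, sub_im, conj_re, conj_im]
  ring

theorem fa_add_fj (l r l' r' : ℂ) : fa l r l' r' + fj l r l' r' = ((starRingEnd ℂ) (l - r) * (l' - r')).im := by
  unfold fa fj
  simp only [map_sub, mul_im, sub_re, sub_im, conj_re, conj_im]
  ring

theorem fu_add {l r l' r' : ℂ} (h : l' = l ∨ r' = r) : normSq (l' + r' - (l + r)) = fu l r l' r' := by
  unfold fu
  rcases h with h | h
  · rw [h, add_sub_add_left_eq_sub]
    simp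
  · rw [h, add_sub_add_right_eq_sub]
    simp

theorem fu_sub {l r l' r' : ℂ} (h : l' = l ∨ r' = r) : normSq (l' - r' - (l - r)) = fu l r l' r' := by
  unfold fu
  rcases h with h | h
  · have e : l' - r' - (l - r) = -(r' - r) := by rw [h]; ring
    rw [e, normSq_neg, h]
    simp
  · have e : l' - r' - (l - r) = l' - l := by rw [h]; ring
    rw [e, h]
    simp

theorem fu_nonneg (l r l' r' : ℂ) : 0 ≤ fu l r l' r' := add_nonneg (normSq_nonneg _) (normSq_nonneg _)

/-- one closed circle -/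
theorem circle {n : ℕ} (hn : 1 ≤ n) (L R : ℕ → ℂ) (hL : L n = L 0) (hR : R n = R 0) (hs : ∀ k, L (k + 1) = L k ∨ R (k + 1) = R k) :
    |∑ k ∈ range n, fj (L k) (R k) (L (k + 1)) (R (k + 1))| + |∑ k ∈ range n, fa (L k) (R k) (L (k + 1)) (R (k + 1))| ≤
      bet n * ∑ k ∈ range n, fu (L k) (R k) (L (k + 1)) (R (k + 1)) := by
  have h1 := pbound hn (fun k => L k + R k) (by rw [hL, hR])
  have h2 := pbound hn (fun k => L k - R k) (by rw [hL, hR])
  simp only [← fa_sub_fj, ← fa_add_fj, fu_add (hs _), fu_sub (hs _)] at h1 h2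
  rw [Finset.sum_sub_distrib] at h1
  rw [Finset.sum_add_distrib] at h2
  rw [abs_le] at h1 h2
  set a := ∑ k ∈ range n, fa (L k) (R k) (L (k + 1)) (R (k + 1))
  set j := ∑ k ∈ range n, fj (L k) (R k) (L (k + 1)) (R (k + 1))
  rcases abs_cases j with h | h <;> rcases abs_cases a with h' | h' <;> linarith [h1.1, h1.2, h2.1, h2.2, h.1, h'.1]

/-- a circle where one of the two functions is constant has no coupling -/
theorem circle_one {n : ℕ} (L R : ℕ → ℂ) (hL : L n = L 0) (hR : R n = R 0)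
    (hs : (∀ k, L (k + 1) = L k) ∨ (∀ k, R (k + 1) = R k)) :
    ∑ k ∈ range n, fj (L k) (R k) (L (k + 1)) (R (k + 1)) = 0 := by
  rcases hs with h | h
  · have h0 : ∀ k, L k = L 0 := by
      intro k
      induction k with
      | zero => rfl
      | succ k ih => rw [h, ih]
    have e : ∀ k, fj (L k) (R k) (L (k + 1)) (R (k + 1)) = (L 0 * (starRingEnd ℂ) (R (k + 1))).im - (L 0 * (starRingEnd ℂ) (R k)).im := by
      intro k
      unfold fj
      rw [h0 (k + 1), h0 k, sub_self, map_zero, mul_zero, map_sub, mul_sub, sub_im]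
      simp
    simp only [e]
    rw [Finset.sum_range_sub (fun k => (L 0 * (starRingEnd ℂ) (R k)).im), hR, sub_self]
  · have h0 : ∀ k, R k = R 0 := by
      intro k
      induction k with
      | zero => rfl
      | succ k ih => rw [h, ih]
    have e : ∀ k, fj (L k) (R k) (L (k + 1)) (R (k + 1)) = (R 0 * (starRingEnd ℂ) (L (k + 1))).im - (R 0 * (starRingEnd ℂ) (L k)).im := by
      intro k
      unfold fj
      rw [h0 (k + 1), h0 k, sub_self, map_zero, mul_zero, map_sub, mul_sub, sub_im]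
      simp
    simp only [e]
    rw [Finset.sum_range_sub (fun k => (R 0 * (starRingEnd ℂ) (L k)).im), hL, sub_self]

theorem sum_periods_eq {f : ℕ → ℝ} {n : ℕ} (hf : ∀ k, f (k + n) = f k) (m : ℕ) :
    ∑ k ∈ range (n * m), f k = m * ∑ k ∈ range n, f k := by
  have hp : ∀ m k, f (n * m + k) = f k := by
    intro m
    induction m with
    | zero => intro k; simp
    | succ m ih =>
      intro k
      have : n * (m + 1) + k = (n * m + k) + n := by ring
      rw [this, hf, ih]
  induction m with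
  | zero => simp
  | succ m ih =>
    rw [Nat.mul_succ, Finset.sum_range_add]
    have : ∑ x ∈ range n, f (n * m + x) = ∑ x ∈ range n, f x := Finset.sum_congr rfl fun x _ => hp m x
    rw [this, ih]
    push_cast
    ring

variable {P : Type} [Fintype P]

theorem period_pos (σ : Equiv.Perm P) (i : P) : 0 < Function.minimalPeriod σ i := by
  apply Function.minimalPeriod_pos_of_mem_periodicPts
  exact Function.mem_periodicPts.2 ⟨orderOf σ, orderOf_pos σ, by
    rw [Function.IsPeriodicPt, Function.IsFixedPt, ← Equiv.Perm.coe_pow, pow_orderOf_eq_one, Equiv.Perm.one_apply]⟩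

omit [Fintype P] in
/-- sum over the order of the permutation -/
theorem order_sum (σ : Equiv.Perm P) (f : P → ℝ) (i : P) : ∃ m : ℕ, ∑ k ∈ range (orderOf σ), f ((σ ^ k) i) =
    m * ∑ k ∈ range (Function.minimalPeriod σ i), f ((σ ^ k) i) ∧ Function.minimalPeriod σ i * m = orderOf σ := by
  have hper : (σ ^ Function.minimalPeriod σ i) i = i := by
    rw [Equiv.Perm.coe_pow]
    exact Function.iterate_minimalPeriod
  obtain ⟨m, hm⟩ : Function.minimalPeriod σ i ∣ orderOf σ := by
    apply Function.IsPeriodicPt.minimalPeriod_dvd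
    rw [Function.IsPeriodicPt, Function.IsFixedPt, ← Equiv.Perm.coe_pow, pow_orderOf_eq_one, Equiv.Perm.one_apply]
  refine ⟨m, ?_, hm.symm⟩
  rw [hm]
  apply sum_periods_eq
  intro k
  show f ((σ ^ (k + _)) i) = _
  rw [pow_add, Equiv.Perm.mul_apply, hper]

/-- **From the circles to the whole set**: if the estimate with the weight `w` holds on every cycle of `σ`, it holds for the sums over the finite set. -/
theorem perm_bound_of (σ : Equiv.Perm P) (L R : P → ℂ) {α : ℝ} (h0 : 0 ≤ α) (w : P → ℝ) (hw : ∀ e, w (σ e) = w e)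
    (hb : ∀ e, |∑ k ∈ range (Function.minimalPeriod σ e),
        fj (L ((σ ^ k) e)) (R ((σ ^ k) e)) (L ((σ ^ (k + 1)) e)) (R ((σ ^ (k + 1)) e))| +
      α * |∑ k ∈ range (Function.minimalPeriod σ e),
        fa (L ((σ ^ k) e)) (R ((σ ^ k) e)) (L ((σ ^ (k + 1)) e)) (R ((σ ^ (k + 1)) e))| ≤
      w e * ∑ k ∈ range (Function.minimalPeriod σ e),
        fu (L ((σ ^ k) e)) (R ((σ ^ k) e)) (L ((σ ^ (k + 1)) e)) (R ((σ ^ (k + 1)) e))) :
    |∑ e, fj (L e) (R e) (L (σ e)) (R (σ e))| + α * |∑ e, fa (L e) (R e) (L (σ e)) (R (σ e))| ≤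
      ∑ e, w e * fu (L e) (R e) (L (σ e)) (R (σ e)) := by
  set M := orderOf σ with hM
  have hMpos : 0 < M := orderOf_pos σ
  have swap : ∀ f : P → ℝ, ∑ e, ∑ k ∈ range M, f ((σ ^ k) e) = M * ∑ e, f e := by
    intro f
    rw [Finset.sum_comm]
    rw [Finset.sum_congr rfl fun k _ => Equiv.sum_comp (σ ^ k) f, Finset.sum_const, card_range, nsmul_eq_mul]
  have step : ∀ (k : ℕ) (e : P), (σ ^ (k + 1)) e = σ ((σ ^ k) e) := fun k e => by rw [pow_succ', Equiv.Perm.mul_apply]
  simp only [step] at hb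
  set J : P → ℝ := fun e => fj (L e) (R e) (L (σ e)) (R (σ e)) with hJ
  set A : P → ℝ := fun e => fa (L e) (R e) (L (σ e)) (R (σ e)) with hA
  set U : P → ℝ := fun e => fu (L e) (R e) (L (σ e)) (R (σ e)) with hU
  have hwk : ∀ e (k : ℕ), w ((σ ^ k) e) = w e := by
    intro e k
    induction k with
    | zero => rfl
    | succ k ih => rw [pow_succ', Equiv.Perm.mul_apply, hw, ih]
  have key : ∀ e, |∑ k ∈ range M, J ((σ ^ k) e)| + α * |∑ k ∈ range M, A ((σ ^ k) e)| ≤ w e * ∑ k ∈ range M, U ((σ ^ k) e) := by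
    intro e
    obtain ⟨m, hm1, hm2⟩ := order_sum σ J e
    obtain ⟨m', hm1', hm2'⟩ := order_sum σ A e
    obtain ⟨m'', hm1'', hm2''⟩ := order_sum σ U e
    have hp := period_pos σ e
    have e1 : m' = m := Nat.eq_of_mul_eq_mul_left hp (hm2'.trans hm2.symm)
    have e2 : m'' = m := Nat.eq_of_mul_eq_mul_left hp (hm2''.trans hm2.symm)
    subst e1
    subst e2
    rw [hm1, hm1', hm1'', abs_mul, abs_mul, Nat.abs_cast]
    have h9 := mul_le_mul_of_nonneg_left (hb e) (Nat.cast_nonneg (α := ℝ) m'')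
    simp only [hJ, hA, hU]
    linarith
  have h2 : ∑ e, (|∑ k ∈ range M, J ((σ ^ k) e)| + α * |∑ k ∈ range M, A ((σ ^ k) e)|) ≤
      ∑ e, w e * ∑ k ∈ range M, U ((σ ^ k) e) := Finset.sum_le_sum fun e _ => key e
  have h3 : ∑ e, w e * ∑ k ∈ range M, U ((σ ^ k) e) = M * ∑ e, w e * U e := by
    rw [← swap fun e => w e * U e]
    refine Finset.sum_congr rfl fun e _ => ?_
    rw [Finset.mul_sum]
    refine Finset.sum_congr rfl fun k _ => ?_
    rw [hwk]
  rw [h3, Finset.sum_add_distrib, ← Finset.mul_sum] at h2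
  have h4 : |∑ e, ∑ k ∈ range M, J ((σ ^ k) e)| ≤ ∑ e, |∑ k ∈ range M, J ((σ ^ k) e)| := Finset.abs_sum_le_sum_abs _ _
  have h5 : |∑ e, ∑ k ∈ range M, A ((σ ^ k) e)| ≤ ∑ e, |∑ k ∈ range M, A ((σ ^ k) e)| := Finset.abs_sum_le_sum_abs _ _
  rw [swap, abs_mul, Nat.abs_cast] at h4 h5
  have h6 := mul_le_mul_of_nonneg_left h5 h0
  have hM0 : (0 : ℝ) < M := by exact_mod_cast hMpos
  have h7 : (M : ℝ) * (|∑ e, J e| + α * |∑ e, A e|) ≤ M * ∑ e, w e * U e := by
    linarith
  exact le_of_mul_le_mul_left h7 hM0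

/-- the estimate on one cycle -/
theorem cycle_bound (σ : Equiv.Perm P) (L R : P → ℂ) (hs : ∀ e, L (σ e) = L e ∨ R (σ e) = R e) (e : P) :
    |∑ k ∈ range (Function.minimalPeriod σ e),
        fj (L ((σ ^ k) e)) (R ((σ ^ k) e)) (L ((σ ^ (k + 1)) e)) (R ((σ ^ (k + 1)) e))| +
      |∑ k ∈ range (Function.minimalPeriod σ e),
        fa (L ((σ ^ k) e)) (R ((σ ^ k) e)) (L ((σ ^ (k + 1)) e)) (R ((σ ^ (k + 1)) e))| ≤
      bet (Function.minimalPeriod σ e) * ∑ k ∈ range (Function.minimalPeriod σ e),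
        fu (L ((σ ^ k) e)) (R ((σ ^ k) e)) (L ((σ ^ (k + 1)) e)) (R ((σ ^ (k + 1)) e)) := by
  have hper : (σ ^ Function.minimalPeriod σ e) e = e := by
    rw [Equiv.Perm.coe_pow]
    exact Function.iterate_minimalPeriod
  refine circle (n := Function.minimalPeriod σ e) (period_pos σ e) (fun k => L ((σ ^ k) e)) (fun k => R ((σ ^ k) e))
    (by simp only [hper, pow_zero, Equiv.Perm.one_apply]) (by simp only [hper, pow_zero, Equiv.Perm.one_apply]) (fun k => ?_)
  simp only [pow_succ', Equiv.Perm.mul_apply]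
  exact hs _

omit [Fintype P] in
/-- no coupling on a one-sided cycle -/
theorem cycle_one (σ : Equiv.Perm P) (L R : P → ℂ) (e : P)
    (h : (∀ k : ℕ, L ((σ ^ (k + 1)) e) = L ((σ ^ k) e)) ∨ (∀ k : ℕ, R ((σ ^ (k + 1)) e) = R ((σ ^ k) e))) :
    ∑ k ∈ range (Function.minimalPeriod σ e),
        fj (L ((σ ^ k) e)) (R ((σ ^ k) e)) (L ((σ ^ (k + 1)) e)) (R ((σ ^ (k + 1)) e)) = 0 := by
  have hper : (σ ^ Function.minimalPeriod σ e) e = e := by
    rw [Equiv.Perm.coe_pow]
    exact Function.iterate_minimalPeriod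
  exact circle_one (n := Function.minimalPeriod σ e) (fun k => L ((σ ^ k) e)) (fun k => R ((σ ^ k) e))
    (by simp only [hper, pow_zero, Equiv.Perm.one_apply]) (by simp only [hper, pow_zero, Equiv.Perm.one_apply]) h

end Pool.Agent.Helper59.V8
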