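import Mathlib

/-!
# MP_ea8a26, project V8: from the lens to the sector
-/

set_option autoImplicit false

namespace Pool.Agent.Helper59.V8

open Complex

/-- case `α = 0` -/
theorem sec_zero {x y n : ℝ} (hn : n = x ^ 2 + y ^ 2) (h : (1 + n) ^ 2 ≤ 12 * y ^ 2) :
    3 * (x * (1 - n)) ^ 2 ≤ (y * (1 + n)) ^ 2 := by
  have h1 : 3 * (x * (1 - n)) ^ 2 - (y * (1 + n)) ^ 2 =
      -(1 / 3) * (1 - 4 * n + n ^ 2) ^ 2 - 1 / 3 * (12 * y ^ 2 - (1 + n) ^ 2) * (1 - n + n ^ 2) := by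
    have hx : x ^ 2 = n - y ^ 2 := by linarith
    have e : 3 * (x * (1 - n)) ^ 2 = 3 * (x ^ 2) * (1 - n) ^ 2 := by ring
    rw [e, hx]
    ring
  have h2 : 0 ≤ 1 - n + n ^ 2 := by nlinarith [sq_nonneg (n - 1)]
  have h3 := mul_nonneg (sub_nonneg.2 h) h2
  nlinarith [sq_nonneg (1 - 4 * n + n ^ 2)]

/-- case `α = 1`, for nonnegative `x` and `y` -/
theorem sec_one {x y n : ℝ} (hx : 0 ≤ x) (hy : 0 ≤ y) (hn : n = x ^ 2 + y ^ 2) (h : (1 + n) / 2 + x ≤ 26321 / 10000 * y) :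
    3 * (x * (1 - n)) ^ 2 ≤ (y * (1 + n)) ^ 2 := by
  have hn0 : 0 ≤ n := by rw [hn]; positivity
  obtain ⟨M, hM⟩ : ∃ M, M = (1 + n) / 2 := ⟨_, rfl⟩
  have hM0 : 0 < M := by rw [hM]; positivity
  have e1 : (1 - n) ^ 2 = 4 * (M ^ 2 - n) := by rw [hM]; ring
  have e2 : (1 + n) ^ 2 = 4 * M ^ 2 := by rw [hM]; ring
  rw [mul_pow, mul_pow, e1, e2]
  -- M² (3 x² - y²) ≤ 3 x² n
  suffices hh : M ^ 2 * (3 * x ^ 2 - y ^ 2) ≤ 3 * x ^ 2 * n by nlinarith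
  rcases le_or_gt (3 * x ^ 2) (y ^ 2) with h1 | h1
  · have h2 : M ^ 2 * (3 * x ^ 2 - y ^ 2) ≤ 0 := mul_nonpos_of_nonneg_of_nonpos (by positivity) (by linarith)
    have h3 : 0 ≤ 3 * x ^ 2 * n := by positivity
    linarith
  · have h2 : M ≤ 26321 / 10000 * y - x := by rw [hM]; linarith
    have h3 : M ^ 2 ≤ (26321 / 10000 * y - x) ^ 2 := pow_le_pow_left₀ hM0.le h2 2
    have h4 := mul_le_mul_of_nonneg_right h3 (by linarith : 0 ≤ 3 * x ^ 2 - y ^ 2)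
    refine h4.trans ?_
    rw [hn]
    have h5 : 3 * x ^ 2 * (x ^ 2 + y ^ 2) - (26321 / 10000 * y - x) ^ 2 * (3 * x ^ 2 - y ^ 2) =
        y * (26321 / 10000 * (26321 / 10000 * y + (2 * (1187 / 1000) * (26321 / 10000) - 2) * x) * (y - 1187 / 1000 * x) ^ 2 +
          (3 * (26321 / 10000) ^ 2 * (1187 / 1000) ^ 2 - 4 * (26321 / 10000) * (1187 / 1000) - (3 * (26321 / 10000) ^ 2 - 4)) * (x ^ 2 * y) +
          (6 * (26321 / 10000) - 26321 / 10000 * (2 * (1187 / 1000) * (26321 / 10000) - 2) * (1187 / 1000) ^ 2) * x ^ 3) := by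
      ring
    have h6 : 0 ≤ 3 * x ^ 2 * (x ^ 2 + y ^ 2) - (26321 / 10000 * y - x) ^ 2 * (3 * x ^ 2 - y ^ 2) := by
      rw [h5]
      norm_num
      positivity
    linarith

/-- **The sector from the lens.** -/
theorem sector_of {x y α : ℝ} (h0 : 0 ≤ α) (h1 : α ≤ 1)
    (h : (1 + (x ^ 2 + y ^ 2)) / 2 + α * |x| ≤ (√3 + 9 / 10 * α) * |y|) :
    3 * (x * (1 - (x ^ 2 + y ^ 2))) ^ 2 ≤ (y * (1 + (x ^ 2 + y ^ 2))) ^ 2 := by
  have hs : √3 ≤ 1.7321 := by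
    rw [Real.sqrt_le_left (by norm_num)]
    norm_num
  have ex : x ^ 2 = |x| ^ 2 := (sq_abs x).symm
  have ey : y ^ 2 = |y| ^ 2 := (sq_abs y).symm
  have hx := abs_nonneg x
  have hy := abs_nonneg y
  rcases le_or_gt ((1 + (x ^ 2 + y ^ 2)) / 2) (√3 * |y|) with h2 | h2
  · apply sec_zero rfl
    have h3 : 1 + (x ^ 2 + y ^ 2) ≤ 2 * √3 * |y| := by linarith
    have h4 : (1 + (x ^ 2 + y ^ 2)) ^ 2 ≤ (2 * √3 * |y|) ^ 2 := pow_le_pow_left₀ (by positivity) h3 2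
    have h5 : (2 * √3 * |y|) ^ 2 = 12 * y ^ 2 := by
      rw [mul_pow, mul_pow, Real.sq_sqrt (by norm_num), sq_abs]
      ring
    linarith
  · have h3 : (1 + (x ^ 2 + y ^ 2)) / 2 + |x| ≤ 26321 / 10000 * |y| := by
      have h4 : 0 ≤ 9 / 10 * |y| - |x| := by
        by_contra hcon
        push Not at hcon
        have : α * (9 / 10 * |y| - |x|) ≤ 0 := mul_nonpos_of_nonneg_of_nonpos h0 hcon.le
        linarith
      have h5 : α * (9 / 10 * |y| - |x|) ≤ 1 * (9 / 10 * |y| - |x|) := mul_le_mul_of_nonneg_right h1 h4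
      have h6 : √3 * |y| ≤ 1.7321 * |y| := mul_le_mul_of_nonneg_right hs hy
      linarith
    have h7 := sec_one (n := x ^ 2 + y ^ 2) hx hy (by rw [sq_abs, sq_abs]) h3
    calc 3 * (x * (1 - (x ^ 2 + y ^ 2))) ^ 2 = 3 * (|x| * (1 - (x ^ 2 + y ^ 2))) ^ 2 := by
          rw [mul_pow, mul_pow, sq_abs]
      _ ≤ (|y| * (1 + (x ^ 2 + y ^ 2))) ^ 2 := h7
      _ = (y * (1 + (x ^ 2 + y ^ 2))) ^ 2 := by rw [mul_pow, mul_pow, sq_abs]

/-- the parameter `s` with `z = s⁻¹ - s` -/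
theorem exists_s (z : ℂ) : ∃ s : ℂ, s ≠ 0 ∧ s⁻¹ - s = z := by
  obtain ⟨r, hr⟩ := IsAlgClosed.exists_pow_nat_eq (z ^ 2 + 4) (n := 2) (by norm_num)
  have h1 : ((r - z) / 2) * ((r + z) / 2) = 1 := by linear_combination hr / 4
  have h2 : (r - z) / 2 ≠ 0 := left_ne_zero_of_mul_eq_one h1
  refine ⟨(r - z) / 2, h2, ?_⟩
  rw [inv_eq_of_mul_eq_one_right h1]
  ring

/-- the sector for `z` in terms of `s` -/
theorem sector_s {s : ℂ} (hs0 : s ≠ 0)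
    (h : normSq s ≠ 1 → 3 * (s.re * (1 - (s.re ^ 2 + s.im ^ 2))) ^ 2 ≤ (s.im * (1 + (s.re ^ 2 + s.im ^ 2))) ^ 2) :
    3 * (s⁻¹ - s).re ^ 2 ≤ (s⁻¹ - s).im ^ 2 := by
  have hn : normSq s = s.re ^ 2 + s.im ^ 2 := by rw [normSq_apply]; ring
  have hn0 : 0 < normSq s := normSq_pos.2 hs0
  have h1 : (s⁻¹ - s).re = s.re * (1 - normSq s) / normSq s := by
    rw [sub_re, inv_re]
    field_simp
  have h2 : (s⁻¹ - s).im = -(s.im * (1 + normSq s)) / normSq s := by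
    rw [sub_im, inv_im]
    field_simp
    ring
  rw [h1, h2, div_pow, div_pow, neg_sq]
  rcases eq_or_ne (normSq s) 1 with h3 | h3
  · rw [h3]
    simp
    positivity
  · have h4 := h h3
    rw [← hn] at h4
    rw [mul_div_assoc']
    gcongr

end Pool.Agent.Helper59.V8
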