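import Pool.Agent.Helper59.V8.Sums

/-!
# MP_ea8a26, project V8: the lens for the zeros
-/

set_option autoImplicit false

namespace Pool.Agent.Helper59.V8

open Complex Finset Polynomial Matrix Pool.Agent.Helper85.Exp Pool.Agent.Helper60.EV2 Pool.Agent.Helper2.PD Pool.Agent.Helper16.PD Pool.Agent.Helper43.Pln
  Pool.Agent.Helper57.PD

variable {P : Type} [Fintype P] {G : Sh P}

omit [Fintype P] in
/-- a colouring without jumps vanishes -/
theorem zero_of_const (ho : ∀ i, G.op i ≠ i) (hcn : Pool.Agent.Helper2.PD.Conn G) (c : Face G → ℂ) (s : ℂ) (hs0 : s ≠ 0)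
    (hc : ∀ x : Cr G, c (Rf G x.1) + s ^ 2 * c (Lf G (G.nxt.symm x.1)) = s * (c (Lf G x.1) + c (Rf G (G.op x.1))))
    (hNS : ∀ x : Cr G, c (Rf G x.1) = c (Lf G (G.nxt.symm x.1))) (b : P) (hb1 : c (Lf G b) = 0) (hb2 : c (Rf G b) = 0) :
    ∀ f, c f = 0 := by
  have hop : ∀ x, G.lf x = true → ((c (Lf G (G.op x)) = 0 ∧ c (Rf G (G.op x)) = 0) ↔ (c (Lf G x) = 0 ∧ c (Rf G x) = 0)) := by
    intro x hx
    have h1 := hc ⟨x, hx⟩
    have h2 := hNS ⟨x, hx⟩
    simp only at h1 h2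
    rw [← h2] at h1
    rw [← corner_N hx]
    constructor
    · rintro ⟨h3, h4⟩
      rw [h3, h4] at h1
      refine ⟨?_, h3⟩
      have h5 : s * c (Lf G x) = 0 := by
        have : s * (c (Lf G x) + 0) = 0 := by rw [← h1]; ring
        rwa [add_zero] at this
      exact (mul_eq_zero.1 h5).resolve_left hs0
    · rintro ⟨h3, h4⟩
      rw [h3, h4] at h1
      refine ⟨h4, ?_⟩
      have h5 : s * c (Rf G (G.op x)) = 0 := by
        have : s * (0 + c (Rf G (G.op x))) = 0 := by rw [← h1]; ring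
        rwa [zero_add] at this
      exact (mul_eq_zero.1 h5).resolve_left hs0
  have hop' : ∀ x, (c (Lf G (G.op x)) = 0 ∧ c (Rf G (G.op x)) = 0) ↔ (c (Lf G x) = 0 ∧ c (Rf G x) = 0) := by
    intro x
    cases hx : G.lf x with
    | true => exact hop x hx
    | false =>
      have h1 : G.lf (G.op x) = true := by rw [G.lf_op x (ho x), hx]; rfl
      have h2 := hop (G.op x) h1
      rw [G.op_op] at h2
      exact h2.symm
  have hL : ∀ e, c (Lf G (seifert G e)) = c (Lf G e) := by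
    intro e
    cases h : G.lf (G.nxt e) with
    | true =>
      have h1 := hNS ⟨G.nxt e, h⟩
      simp only [Equiv.symm_apply_apply] at h1
      rw [seifert_apply, ← corner_N h, h1]
    | false => rw [step_false ho h]
  have hR : ∀ e, c (Rf G (seifert G e)) = c (Rf G e) := by
    intro e
    cases h : G.lf (G.nxt e) with
    | true => rw [step_true ho h]
    | false =>
      have h0 : G.lf (G.op (G.nxt e)) = true := by rw [G.lf_op _ (ho _), h]; rfl
      have h1 := hNS ⟨G.op (G.nxt e), h0⟩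
      simp only at h1
      rw [corner_S h0, G.op_op, Equiv.symm_apply_apply] at h1
      rw [seifert_apply, h1]
  have key := hcn (fun v => c (Lf G v) = 0 ∧ c (Rf G v) = 0) ⟨b, hb1, hb2⟩ (fun v => by
    have h1 := hop' (G.nxt v)
    have h2 := hL v
    have h3 := hR v
    rw [seifert_apply] at h2 h3
    rw [h2, h3] at h1
    exact h1.symm) hop'
  exact face_ind (fun i => (key i).1) (fun i => (key i).2)

/-- **A nonzero colouring** exists at every zero of the Conway polynomial of the positive diagram. -/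
theorem exists_col (hG : Plane G) (nab : Dg G → ℤ[X]) (hn : Cs nab) {s : ℂ} (hs0 : s ≠ 0)
    (hz : aeval (s⁻¹ - s) (nab (allPos G)) = 0) (b : P) :
    ∃ c : Face G → ℂ, (∃ f, c f ≠ 0) ∧ c (Lf G (G.nxt.symm b)) = 0 ∧ c (Rf G (G.nxt.symm b)) = 0 ∧
      ∀ x : Cr G, c (Rf G x.1) + s ^ 2 * c (Lf G (G.nxt.symm x.1)) = s * (c (Lf G x.1) + c (Rf G (G.op x.1))) := by
  classical
  have : Nonempty P := ⟨b⟩
  have : Fintype (Face G) := Fintype.ofFinite _
  have hgood : Good (circ G) G := ⟨hG.cross, hG.conn, hG.genus, le_rfl⟩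
  obtain ⟨α, nab', e, hn', -, -, h1, h2⟩ := one_shadow hgood b
  have hnn : nab' = nab := Cs.unique hn' hn
  subst hnn
  have h3 := h1 s hs0
  have h4 := h2 s hs0
  have e0 : aeval (s⁻¹ - s) (nab' (Pool.Agent.Helper27.EV2.allPos G)) = 0 := hz
  rw [h3, e0, mul_zero, norm_zero] at h4
  have h5 : (((fdG hgood b).A (s ^ 2) (-s) (-s)).submatrix id e).det = 0 := by
    rcases mul_eq_zero.1 h4.symm with h | h
    · exact absurd h (zpow_ne_zero _ (norm_ne_zero_iff.2 hs0))
    · exact norm_eq_zero.1 h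
  obtain ⟨v, hv, hv0⟩ := Matrix.exists_mulVec_eq_zero_iff.2 h5
  let c : Face G → ℂ := fun f => if h : f ≠ (fdG hgood b).f₁ ∧ f ≠ (fdG hgood b).f₂ then v (e.symm ⟨f, h⟩) else 0
  have hc1 : c (fdG hgood b).f₁ = 0 := by
    show dite _ _ _ = _
    rw [dif_neg (by simp)]
  have hc2 : c (fdG hgood b).f₂ = 0 := by
    show dite _ _ _ = _
    rw [dif_neg (by simp)]
  refine ⟨c, ?_, hc1, hc2, ?_⟩
  · obtain ⟨x, hx⟩ := Function.ne_iff.1 hv
    refine ⟨(e x).1, ?_⟩
    show dite _ _ _ ≠ _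
    rw [dif_pos (e x).2]
    have : (⟨(e x).1, (e x).2⟩ : (fdG hgood b).Col) = e x := rfl
    rw [this, Equiv.symm_apply_apply]
    exact hx
  · intro x
    have h6 := (fdG hgood b).mulVec_row (s ^ 2) (-s) (-s) c hc1 hc2 x
    have h7 : ∑ f : (fdG hgood b).Col, (fdG hgood b).A (s ^ 2) (-s) (-s) x f * c f.1 = 0 := by
      have h8 := congrFun hv0 x
      rw [Matrix.mulVec, dotProduct] at h8
      rw [← Equiv.sum_comp e]
      refine Eq.trans (Finset.sum_congr rfl fun y _ => ?_) h8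
      rw [Matrix.submatrix_apply]
      congr 1
      show dite _ _ _ = _
      rw [dif_pos (e y).2]
      have : (⟨(e y).1, (e y).2⟩ : (fdG hgood b).Col) = e y := rfl
      rw [this, Equiv.symm_apply_apply]
    rw [h7] at h6
    have h9 : (fdG hgood b).row (s ^ 2) (-s) (-s) c x = c (Rf G x.1) + s ^ 2 * c (Lf G (G.nxt.symm x.1)) + -s * c (Lf G x.1) + -s * c (Rf G (G.op x.1)) := rfl
    rw [h9] at h6
    linear_combination -h6

/-- **The lens.** `w`: weights of the Seifert circles for which the circle estimate holds. -/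
theorem lens (hG : Plane G) (nab : Dg G → ℤ[X]) (hn : Cs nab) {s : ℂ} (hs0 : s ≠ 0) (hs1 : normSq s ≠ 1)
    (hz : aeval (s⁻¹ - s) (nab (allPos G)) = 0) {α B : ℝ} (h0 : 0 ≤ α) (w : P → ℝ) (hw : ∀ e, w (seifert G e) = w e)
    (hb : ∀ c : Face G → ℂ, (∀ x : Cr G, c (Rf G x.1) + s ^ 2 * c (Lf G (G.nxt.symm x.1)) = s * (c (Lf G x.1) + c (Rf G (G.op x.1)))) →
      (∀ e, |∑ k ∈ range (Function.minimalPeriod (seifert G) e),
        fj (c (Lf G ((seifert G ^ k) e))) (c (Rf G ((seifert G ^ k) e))) (c (Lf G ((seifert G ^ (k + 1)) e)))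
          (c (Rf G ((seifert G ^ (k + 1)) e)))| +
      α * |∑ k ∈ range (Function.minimalPeriod (seifert G) e),
        fa (c (Lf G ((seifert G ^ k) e))) (c (Rf G ((seifert G ^ k) e))) (c (Lf G ((seifert G ^ (k + 1)) e)))
          (c (Rf G ((seifert G ^ (k + 1)) e)))| ≤
      w e * ∑ k ∈ range (Function.minimalPeriod (seifert G) e),
        fu (c (Lf G ((seifert G ^ k) e))) (c (Rf G ((seifert G ^ k) e))) (c (Lf G ((seifert G ^ (k + 1)) e)))
          (c (Rf G ((seifert G ^ (k + 1)) e)))) ∧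
      (∀ x : Cr G, c (Rf G x.1) ≠ c (Lf G (G.nxt.symm x.1)) → w (G.nxt.symm x.1) + w (G.nxt.symm (G.op x.1)) ≤ B)) :
    (1 + normSq s) / 2 + α * |s.re| ≤ B * |s.im| := by
  have hne := nonempty_of hG
  obtain ⟨b⟩ := hne
  obtain ⟨c, ⟨f, hf⟩, hc1, hc2, hc⟩ := exists_col hG nab hn hs0 hz b
  obtain ⟨hb1, hb2⟩ := hb c hc
  have ho := hG.cross
  obtain ⟨u, hu⟩ : ∃ u : ℝ, u = ∑ x : Cr G, normSq (c (Rf G x.1) - c (Lf G (G.nxt.symm x.1))) := ⟨_, rfl⟩
  obtain ⟨a, ha⟩ : ∃ a : ℝ, a = ∑ x : Cr G, ((starRingEnd ℂ) (c (Lf G (G.nxt.symm x.1))) * c (Rf G x.1)).im := ⟨_, rfl⟩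
  obtain ⟨j, hj⟩ : ∃ j : ℝ, j = ∑ x : Cr G, ((c (Lf G x.1) + c (Rf G (G.op x.1))) *
    (starRingEnd ℂ) (c (Rf G x.1) - c (Lf G (G.nxt.symm x.1)))).im := ⟨_, rfl⟩
  obtain ⟨i1, i2⟩ := identities ho c s hc hs1 hu ha hj
  have hu0 : 0 < u := by
    rcases (Finset.sum_nonneg fun (x : Cr G) (_ : x ∈ univ) => normSq_nonneg (c (Rf G x.1) - c (Lf G (G.nxt.symm x.1)))).lt_or_eq with h | h
    · rw [hu]
      exact h
    · exfalso
      have h1 := (Finset.sum_eq_zero_iff_of_nonneg fun x _ => normSq_nonneg _).1 h.symm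
      refine hf (zero_of_const ho hG.conn c s hs0 hc (fun x => ?_) (G.nxt.symm b) hc1 hc2 f)
      exact sub_eq_zero.1 (normSq_eq_zero.1 (h1 x (mem_univ x)))
  have hp := perm_bound_of (seifert G) (fun e => c (Lf G e)) (fun e => c (Rf G e)) h0 w hw hb1
  have e1 : ∑ e, fj (c (Lf G e)) (c (Rf G e)) (c (Lf G (seifert G e))) (c (Rf G (seifert G e))) = j := by
    have h := sum_col ho c (fun _ => 1) fj
    simp only [one_mul] at h
    rw [h, hj]
    refine Finset.sum_congr rfl fun x _ => ?_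
    unfold fj
    simp only [sub_self, map_zero, mul_zero, zero_im, add_zero, add_mul, add_im]
    ring
  have e2 : ∑ e, fa (c (Lf G e)) (c (Rf G e)) (c (Lf G (seifert G e))) (c (Rf G (seifert G e))) = 2 * a := by
    have h := sum_col ho c (fun _ => 1) fa
    simp only [one_mul] at h
    rw [h, ha, Finset.mul_sum]
    refine Finset.sum_congr rfl fun x _ => ?_
    unfold fa
    simp only [mul_im, conj_re, conj_im]
    ring
  have e3 : ∑ e, w e * fu (c (Lf G e)) (c (Rf G e)) (c (Lf G (seifert G e))) (c (Rf G (seifert G e))) ≤ B * u := by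
    rw [sum_col ho c w fu, hu, Finset.mul_sum]
    refine Finset.sum_le_sum fun x _ => ?_
    unfold fu
    simp only [sub_self, map_zero, add_zero, zero_add]
    by_cases hx : c (Rf G x.1) = c (Lf G (G.nxt.symm x.1))
    · rw [hx, sub_self, map_zero]
      simp
    · have h1 := hb2 x hx
      have h2 := mul_le_mul_of_nonneg_right h1 (normSq_nonneg (c (Rf G x.1) - c (Lf G (G.nxt.symm x.1))))
      linarith
  rw [e1, e2] at hp
  have h1 : |j| + α * |2 * a| ≤ B * u := hp.trans e3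
  have h2 := mul_le_mul_of_nonneg_left h1 (abs_nonneg s.im)
  have h3 : |s.im| * |j| = (1 + normSq s) / 2 * u := by
    rw [← abs_mul, i2, abs_neg, abs_of_nonneg]
    have := normSq_nonneg s
    positivity
  have h4 : |s.im| * |2 * a| = |s.re| * u := by
    rw [← abs_mul, i1, abs_mul, abs_of_pos hu0]
  have h5 : ((1 + normSq s) / 2 + α * |s.re|) * u ≤ (B * |s.im|) * u := by
    have e : |s.im| * (|j| + α * |2 * a|) = |s.im| * |j| + α * (|s.im| * |2 * a|) := by ring
    rw [e, h3, h4] at h2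
    linarith
  exact le_of_mul_le_mul_right h5 hu0

end Pool.Agent.Helper59.V8
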