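import Pool.Agent.Helper59.V8.Lens
import Pool.Agent.Helper59.V8.Sector
import Pool.Agent.Helper30.VQ.Cir
import Pool.Agent.Helper43.V6.Cot
import Pool.Agent.Helper76.Conway.Parity

/-!
# MP_ea8a26, project V8: the criterion with weights of the Seifert circles
-/

set_option autoImplicit false

namespace Pool.Agent.Helper59.V8

open Complex Finset Polynomial Pool.Agent.Helper85.Exp Pool.Agent.Helper60.EV2 Pool.Agent.Helper2.PD Pool.Agent.Helper16.PD Pool.Agent.Helper43.Pln
  Pool.Agent.Helper30.VQ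

variable {P : Type} [Fintype P] {G : Sh P}

/-- Log-concavity from the sector (proof of helper69). -/
theorem lc_of_sector (hG : Plane G) (nab : Dg G → ℤ[X]) (hn : Cs nab)
    (H : ∀ z : ℂ, aeval z (nab (allPos G)) = 0 → 3 * z.re ^ 2 ≤ z.im ^ 2) : LogConcave G nab := by
  classical
  refine fun k => lc_int (fun i => ?_) _ k
  obtain ⟨b⟩ := nonempty_of hG
  have hpar : ∃ L : ℕ, ∀ j, (j + L) % 2 = 1 → (nab (allPos G)).coeff j = 0 := by
    by_cases h0 : ∃ m, (nab (allPos G)).coeff m ≠ 0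
    · obtain ⟨m, hm⟩ := h0
      refine ⟨m, fun j hj => ?_⟩
      by_contra hj0
      have := parity (hn.cw b) (allPos G) (fun i _ => Or.inl rfl) hm hj0
      omega
    · push Not at h0
      exact ⟨0, fun j _ => h0 j⟩
  obtain ⟨L, hL⟩ := hpar
  have h1 := Pool.Agent.Helper76.Conway.logConcave_main (nab (allPos G)) L hL (fun _ => H) ((i + 2 : ℕ) : ℤ)
  have e1 : Pool.Agent.Helper76.Conway.cz (nab (allPos G)) (((i + 2 : ℕ) : ℤ) + 2) = (nab (allPos G)).coeff (i + 4) := by
    unfold Pool.Agent.Helper76.Conway.cz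
    rw [if_pos (by omega)]
    congr 1
  have e2 : Pool.Agent.Helper76.Conway.cz (nab (allPos G)) (((i + 2 : ℕ) : ℤ) - 2) = (nab (allPos G)).coeff i := by
    unfold Pool.Agent.Helper76.Conway.cz
    rw [if_pos (by omega)]
    congr 1
    omega
  have e3 : Pool.Agent.Helper76.Conway.cz (nab (allPos G)) ((i + 2 : ℕ) : ℤ) = (nab (allPos G)).coeff (i + 2) := by
    unfold Pool.Agent.Helper76.Conway.cz
    rw [if_pos (by omega)]
    congr 1
  rw [e1, e2, e3] at h1
  linarith

/-- **The criterion**, general form: `w` are weights of the Seifert circles for which the estimate on every circle holds, at the points `s` outside the sector. -/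
theorem main_w (hG : Plane G) (nab : Dg G → ℤ[X]) (hn : Cs nab) {α : ℝ} (h0 : 0 ≤ α) (h1 : α ≤ 1) (w : P → ℝ)
    (hw : ∀ e, w (seifert G e) = w e)
    (hb : ∀ s : ℂ, s ≠ 0 → normSq s ≠ 1 → (s⁻¹ - s).im ^ 2 < 3 * (s⁻¹ - s).re ^ 2 → ∀ c : Face G → ℂ,
      (∀ x : Cr G, c (Rf G x.1) + s ^ 2 * c (Lf G (G.nxt.symm x.1)) = s * (c (Lf G x.1) + c (Rf G (G.op x.1)))) →
      (∀ e, |∑ k ∈ range (Function.minimalPeriod (seifert G) e),
        fj (c (Lf G ((seifert G ^ k) e))) (c (Rf G ((seifert G ^ k) e))) (c (Lf G ((seifert G ^ (k + 1)) e)))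
          (c (Rf G ((seifert G ^ (k + 1)) e)))| +
      α * |∑ k ∈ range (Function.minimalPeriod (seifert G) e),
        fa (c (Lf G ((seifert G ^ k) e))) (c (Rf G ((seifert G ^ k) e))) (c (Lf G ((seifert G ^ (k + 1)) e)))
          (c (Rf G ((seifert G ^ (k + 1)) e)))| ≤
      w e * ∑ k ∈ range (Function.minimalPeriod (seifert G) e),
        fu (c (Lf G ((seifert G ^ k) e))) (c (Rf G ((seifert G ^ k) e))) (c (Lf G ((seifert G ^ (k + 1)) e)))
          (c (Rf G ((seifert G ^ (k + 1)) e)))) ∧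
      (∀ x : Cr G, c (Rf G x.1) ≠ c (Lf G (G.nxt.symm x.1)) → w x.1 + w (G.op x.1) ≤ √3 + 9 / 10 * α)) :
    (∀ z : ℂ, aeval z (nab (allPos G)) = 0 → 3 * z.re ^ 2 ≤ z.im ^ 2) ∧ LogConcave G nab := by
  have key : ∀ z : ℂ, aeval z (nab (allPos G)) = 0 → 3 * z.re ^ 2 ≤ z.im ^ 2 := by
    intro z hz
    obtain ⟨s, hs0, rfl⟩ := exists_s z
    by_contra hcon
    push Not at hcon
    have h2 : 3 * (s⁻¹ - s).re ^ 2 ≤ (s⁻¹ - s).im ^ 2 := by
      refine sector_s hs0 fun hs1 => ?_
      have h3 := lens hG nab hn hs0 hs1 hz (B := √3 + 9 / 10 * α) h0 w hw (fun c hc => by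
        obtain ⟨h4, h5⟩ := hb s hs0 hs1 hcon c hc
        refine ⟨h4, fun x hx => ?_⟩
        have h6 := h5 x hx
        have e1 : w (G.nxt.symm x.1) = w (G.op x.1) := by
          rw [← hw (G.nxt.symm x.1), seifert_apply, Equiv.apply_symm_apply]
        have e2 : w (G.nxt.symm (G.op x.1)) = w x.1 := by
          rw [← hw (G.nxt.symm (G.op x.1)), seifert_apply, Equiv.apply_symm_apply, G.op_op]
        rw [e1, e2]
        linarith)
      apply sector_of h0 h1
      rw [normSq_apply] at h3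
      have e : s.re * s.re + s.im * s.im = s.re ^ 2 + s.im ^ 2 := by ring
      rw [e] at h3
      exact h3
    linarith
  exact ⟨key, lc_of_sector hG nab hn key⟩

/-- the side of the crossing of a step: `true` on the left -/
def side (G : Sh P) (e : P) : Bool := G.lf (G.nxt e)

/-- **The criterion** with the weights `α * cot (π / n) / 2 + (1 - α) * sqrt (l * r) / 4`. -/
theorem main (hG : Plane G) (nab : Dg G → ℤ[X]) (hn : Cs nab) {α : ℝ} (h0 : 0 ≤ α) (h1 : α ≤ 1)
    (h : ∀ i, wt α (seifert G) (side G) i + wt α (seifert G) (side G) (G.op i) ≤ √3 + 9 / 10 * α) :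
    (∀ z : ℂ, aeval z (nab (allPos G)) = 0 → 3 * z.re ^ 2 ≤ z.im ^ 2) ∧ LogConcave G nab := by
  refine main_w hG nab hn h0 h1 (wt α (seifert G) (side G)) (fun e => wt_apply (α := α) (seifert G) (side G) e) ?_
  intro s _ _ _ c hc
  refine ⟨fun e => ?_, fun x _ => h x.1⟩
  refine cycle_wt h0 h1 (seifert G) (fun e => c (Lf G e)) (fun e => c (Rf G e)) (side G) (fun e he => ?_) (fun e he => ?_) e
  · show c (Rf G (seifert G e)) = c (Rf G e)
    rw [step_true hG.cross he]
  · show c (Lf G (seifert G e)) = c (Lf G e)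
    rw [step_false hG.cross he]

end Pool.Agent.Helper59.V8
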