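import Mathlib

/-!
# MP_ea8a26, project V8: the isoperimetric inequality for closed polygons with at most `N` edges, and for functions on the cycles of a permutation
-/

set_option autoImplicit false

namespace Pool.Agent.Helper59.V8

open Complex Finset

/-- the form of one edge of a polygon -/
noncomputable def q (t : ℝ) (w z : ℂ) : ℝ := normSq (z - w) - 2 * t * ((starRingEnd ℂ) w * z).im

theorem q_step {t A B : ℝ} (hA : 0 < A) (h : A * B = 1 + t ^ 2) (w z : ℂ) :
    (1 - B) * normSq z ≤ q t w z + (A - 1) * normSq w := by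
  unfold q
  rw [normSq_apply, normSq_apply, normSq_apply]
  simp only [sub_re, sub_im, mul_im, conj_re, conj_im]
  have h2 : 0 ≤ (A * w.re - (z.re + t * z.im)) ^ 2 + (A * w.im - (z.im - t * z.re)) ^ 2 := by positivity
  have h3 : A * (((z.re - w.re) * (z.re - w.re) + (z.im - w.im) * (z.im - w.im) - 2 * t * (w.re * z.im + -w.im * z.re) +
      (A - 1) * (w.re * w.re + w.im * w.im)) - (1 - B) * (z.re * z.re + z.im * z.im)) =
      (A * w.re - (z.re + t * z.im)) ^ 2 + (A * w.im - (z.im - t * z.re)) ^ 2 +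
        (A * B - (1 + t ^ 2)) * (z.re ^ 2 + z.im ^ 2) := by ring
  rw [h, sub_self, zero_mul, add_zero] at h3
  have h4 := nonneg_of_mul_nonneg_right (h3 ▸ h2) hA
  linarith

theorem prod_eq {a b c : ℝ} (ha : 0 < a) (hb : 0 < b) (hc : 0 < c) : b / (c * a) * (a / (c * b)) = 1 / c ^ 2 := by
  field_simp

/-- **Closed polygons through `0`.** -/
theorem poly0 {N : ℕ} (hN : 3 ≤ N) (z : ℕ → ℂ) {n : ℕ} (hn : 1 ≤ n) (hnN : n ≤ N) (h0 : z 0 = 0) (hz : z n = 0) :
    0 ≤ ∑ i ∈ range n, q (Real.tan (Real.pi / N)) (z i) (z (i + 1)) := by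
  set θ : ℝ := Real.pi / N with hθ
  have hN0 : (0 : ℝ) < N := by exact_mod_cast (by omega : 0 < N)
  have hθ0 : 0 < θ := div_pos Real.pi_pos hN0
  have hNθ : (N : ℝ) * θ = Real.pi := by rw [hθ]; field_simp
  have hcos : 0 < Real.cos θ := by
    apply Real.cos_pos_of_mem_Ioo
    constructor
    · linarith [Real.pi_pos]
    · have : (2 : ℝ) * θ < N * θ := by
        apply mul_lt_mul_of_pos_right _ hθ0
        exact_mod_cast (by omega : 2 < N)
      linarith
  have hsin : ∀ j : ℕ, 1 ≤ j → j < N → 0 < Real.sin (j * θ) := by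
    intro j h1 h2
    apply Real.sin_pos_of_pos_of_lt_pi
    · have : (0 : ℝ) < j := by exact_mod_cast h1
      positivity
    · rw [← hNθ]
      apply mul_lt_mul_of_pos_right _ hθ0
      exact_mod_cast h2
  have hsin' : ∀ j : ℕ, j ≤ N → 0 ≤ Real.sin (j * θ) := by
    intro j h2
    apply Real.sin_nonneg_of_nonneg_of_le_pi
    · positivity
    · rw [← hNθ]
      apply mul_le_mul_of_nonneg_right _ hθ0.le
      exact_mod_cast h2
  have hrec : ∀ j : ℕ, Real.sin ((j + 1 + 1 : ℕ) * θ) + Real.sin (j * θ) = 2 * Real.sin ((j + 1 : ℕ) * θ) * Real.cos θ := by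
    intro j
    have e1 : ((j + 1 + 1 : ℕ) : ℝ) * θ = (j + 1 : ℕ) * θ + θ := by push_cast; ring
    have e2 : (j : ℝ) * θ = (j + 1 : ℕ) * θ - θ := by push_cast; ring
    rw [e1, e2, Real.sin_add, Real.sin_sub]
    ring
  have htan : 1 + Real.tan θ ^ 2 = 1 / Real.cos θ ^ 2 := by
    rw [Real.tan_eq_sin_div_cos, div_pow]
    field_simp
    rw [add_comm]
    exact Real.sin_sq_add_cos_sq θ
  have key : ∀ j : ℕ, 1 ≤ j → j < N → (Real.sin ((j + 1 : ℕ) * θ) / (Real.cos θ * Real.sin (j * θ)) - 1) * normSq (z j) ≤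
      ∑ i ∈ range j, q (Real.tan θ) (z i) (z (i + 1)) := by
    intro j h1
    induction j, h1 using Nat.le_induction with
    | base =>
      intro _
      have e1 : Real.sin ((1 + 1 : ℕ) * θ) = 2 * Real.sin θ * Real.cos θ := by
        have := hrec 0
        simp only [Nat.cast_zero, zero_mul, Real.sin_zero, add_zero, zero_add, Nat.cast_one, one_mul] at this
        exact this
      have hs : 0 < Real.sin θ := by
        have := hsin 1 le_rfl (by omega)
        simpa using this
      rw [e1, Finset.sum_range_one, h0, Nat.cast_one, one_mul]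
      have e2 : 2 * Real.sin θ * Real.cos θ / (Real.cos θ * Real.sin θ) = 2 := by
        field_simp
      rw [e2]
      unfold q
      simp
      norm_num
    | succ j h1 ih =>
      intro h2
      have h3 := ih (by omega)
      have hsj := hsin j h1 (by omega)
      have hsj1 := hsin (j + 1) (by omega) h2
      rw [Finset.sum_range_succ]
      have h4 := q_step (t := Real.tan θ) (A := Real.sin ((j + 1 : ℕ) * θ) / (Real.cos θ * Real.sin (j * θ)))
        (B := Real.sin (j * θ) / (Real.cos θ * Real.sin ((j + 1 : ℕ) * θ))) (by positivity) (by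
          rw [htan]
          exact prod_eq hsj hsj1 hcos) (z j) (z (j + 1))
      have e3 : Real.sin ((j + 1 + 1 : ℕ) * θ) / (Real.cos θ * Real.sin ((j + 1 : ℕ) * θ)) - 1 =
          1 - Real.sin (j * θ) / (Real.cos θ * Real.sin ((j + 1 : ℕ) * θ)) := by
        have e4 : Real.sin ((j + 1 + 1 : ℕ) * θ) = 2 * Real.sin ((j + 1 : ℕ) * θ) * Real.cos θ - Real.sin (j * θ) := by
          linarith [hrec j]
        rw [e4]
        field_simp
        ring
      rw [e3]
      linarith
  rcases Nat.lt_or_ge n 2 with h | h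
  · have : n = 1 := by omega
    subst this
    rw [Finset.sum_range_one, h0, hz]
    unfold q
    simp
  · obtain ⟨m, rfl⟩ : ∃ m, n = m + 1 := ⟨n - 1, by omega⟩
    rw [Finset.sum_range_succ, hz]
    have h1 := key m (by omega) (by omega)
    have h2 : q (Real.tan θ) (z m) 0 = normSq (z m) := by
      unfold q
      simp
    rw [h2]
    have h3 : 0 ≤ Real.sin ((m + 1 : ℕ) * θ) / (Real.cos θ * Real.sin (m * θ)) := by
      apply div_nonneg (hsin' _ hnN)
      exact mul_nonneg hcos.le (hsin' _ (by omega))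
    have h4 := mul_nonneg h3 (normSq_nonneg (z m))
    linarith

/-- **Closed polygons.** -/
theorem poly {N : ℕ} (hN : 3 ≤ N) (h : ℕ → ℂ) {n : ℕ} (hn : 1 ≤ n) (hnN : n ≤ N) (hh : h n = h 0) :
    0 ≤ ∑ i ∈ range n, q (Real.tan (Real.pi / N)) (h i) (h (i + 1)) := by
  have h1 := poly0 hN (fun i => h i - h 0) hn hnN (sub_self _) (by simp [hh])
  have e : ∀ i, q (Real.tan (Real.pi / N)) (h i - h 0) (h (i + 1) - h 0) = q (Real.tan (Real.pi / N)) (h i) (h (i + 1)) +
      (2 * Real.tan (Real.pi / N) * ((starRingEnd ℂ) (h i) * h 0).im -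
        2 * Real.tan (Real.pi / N) * ((starRingEnd ℂ) (h (i + 1)) * h 0).im) := by
    intro i
    unfold q
    have e1 : h (i + 1) - h 0 - (h i - h 0) = h (i + 1) - h i := by ring
    rw [e1]
    simp only [map_sub, sub_mul, mul_sub, sub_im, mul_im, conj_re, conj_im]
    ring
  simp only [e] at h1
  rw [Finset.sum_add_distrib, Finset.sum_range_sub'] at h1
  rw [hh, sub_self, add_zero] at h1
  exact h1

/-- sums over periods -/
theorem sum_periods {f : ℕ → ℝ} {n : ℕ} (hf : ∀ k, f (k + n) = f k) (h : 0 ≤ ∑ k ∈ range n, f k) (m : ℕ) :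
    0 ≤ ∑ k ∈ range (n * m), f k := by
  have hp : ∀ m k, f (n * m + k) = f k := by
    intro m
    induction m with
    | zero => intro k; simp
    | succ m ih =>
      intro k
      have : n * (m + 1) + k = (n * m + k) + n := by ring
      rw [this, hf, ih]
  induction m with
  | zero => simp
  | succ m ih =>
    rw [Nat.mul_succ, Finset.sum_range_add]
    have : ∑ x ∈ range n, f (n * m + x) = ∑ x ∈ range n, f x := Finset.sum_congr rfl fun x _ => hp m x
    rw [this]
    exact add_nonneg ih h

/-- **Functions on the cycles of a permutation**, all of length at most `N`. -/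
theorem perm {P : Type} [Fintype P] {N : ℕ} (hN : 3 ≤ N) (σ : Equiv.Perm P) (hσ : ∀ i, Function.minimalPeriod σ i ≤ N)
    (g : P → ℂ) : 0 ≤ ∑ i, q (Real.tan (Real.pi / N)) (g i) (g (σ i)) := by
  set F : P → ℝ := fun i => q (Real.tan (Real.pi / N)) (g i) (g (σ i)) with hF
  have h1 : ∀ i, 0 ≤ ∑ k ∈ range (N.factorial), F ((σ ^ k) i) := by
    intro i
    have hpos : 0 < Function.minimalPeriod σ i := by
      apply Function.minimalPeriod_pos_of_mem_periodicPts
      exact Function.mem_periodicPts.2 ⟨orderOf σ, orderOf_pos σ, by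
        rw [Function.IsPeriodicPt, Function.IsFixedPt, ← Equiv.Perm.coe_pow, pow_orderOf_eq_one, Equiv.Perm.one_apply]⟩
    have hper : (σ ^ Function.minimalPeriod σ i) i = i := by
      rw [Equiv.Perm.coe_pow]
      exact Function.iterate_minimalPeriod
    obtain ⟨m, hm⟩ : Function.minimalPeriod σ i ∣ N.factorial := Nat.dvd_factorial hpos (hσ i)
    rw [hm]
    apply sum_periods
    · intro k
      show F ((σ ^ (k + _)) i) = _
      rw [pow_add, Equiv.Perm.mul_apply, hper]
    · have h2 := poly hN (fun k => g ((σ ^ k) i)) hpos (hσ i) (by simp only [pow_zero, Equiv.Perm.one_apply]; rw [hper])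
      refine le_of_le_of_eq h2 (Finset.sum_congr rfl fun k _ => ?_)
      simp only [hF]
      rw [pow_succ', Equiv.Perm.mul_apply]
  have h2 : 0 ≤ ∑ i, ∑ k ∈ range (N.factorial), F ((σ ^ k) i) := Finset.sum_nonneg fun i _ => h1 i
  rw [Finset.sum_comm] at h2
  have h3 : ∀ k ∈ range (N.factorial), ∑ i, F ((σ ^ k) i) = ∑ i, F i := fun k _ => Equiv.sum_comp (σ ^ k) F
  rw [Finset.sum_congr rfl h3, Finset.sum_const, card_range, nsmul_eq_mul] at h2
  exact nonneg_of_mul_nonneg_right h2 (by exact_mod_cast N.factorial_pos)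

end Pool.Agent.Helper59.V8
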