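import Pool.Agent.Helper59.V8.Cyc
import Pool.Agent.Helper57.PD.Last
import Pool.Agent.Helper43.PD.Plane

/-!
# MP_ea8a26, project V8: sums over the steps along the Seifert circles and over the crossings

At the crossing `x` (`lf x = true`) the faces are `N = Rf x`, `S = Lf (nxt⁻¹ x)`, `W = Lf x`, `E = Rf (op x)`.
-/

set_option autoImplicit false

namespace Pool.Agent.Helper59.V8

open Complex Finset Pool.Agent.Helper85.Exp Pool.Agent.Helper60.EV2 Pool.Agent.Helper2.PD Pool.Agent.Helper16.PD Pool.Agent.Helper43.Pln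

variable {P : Type} [Fintype P] {G : Sh P}

theorem sum_cross (ho : ∀ i, G.op i ≠ i) (f : P → ℝ) : ∑ i, f i = ∑ x : Cr G, (f x.1 + f (G.op x.1)) := by
  classical
  have h1 : ∑ i ∈ univ.filter (fun i => ¬ G.lf i = true), f i = ∑ i ∈ univ.filter (fun i => G.lf i = true), f (G.op i) := by
    refine Finset.sum_nbij' G.op G.op ?_ ?_ ?_ ?_ ?_
    · intro i hi
      simp only [mem_filter, mem_univ, true_and] at hi ⊢
      rw [G.lf_op i (ho i)]
      simpa using hi
    · intro i hi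
      simp only [mem_filter, mem_univ, true_and] at hi ⊢
      rw [G.lf_op i (ho i), hi]
      decide
    · intro i _
      exact G.op_op i
    · intro i _
      exact G.op_op i
    · intro i _
      rw [G.op_op]
  rw [← Finset.sum_filter_add_sum_filter_not univ (fun i => G.lf i = true), h1, ← Finset.sum_add_distrib]
  exact Finset.sum_subtype _ (fun x => by simp) _

omit [Fintype P] in
theorem seifert_apply (G : Sh P) (i : P) : seifert G i = G.op (G.nxt i) := rfl

theorem sum_steps (ho : ∀ i, G.op i ≠ i) (F : P → P → ℝ) : ∑ e, F e (seifert G e) =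
    ∑ x : Cr G, (F (G.nxt.symm x.1) (G.op x.1) + F (G.nxt.symm (G.op x.1)) x.1) := by
  rw [← Equiv.sum_comp G.nxt.symm, sum_cross ho]
  refine Finset.sum_congr rfl fun x _ => ?_
  rw [seifert_apply, seifert_apply, Equiv.apply_symm_apply, Equiv.apply_symm_apply, G.op_op]

/-- the sum of a function of a step -/
theorem sum_col (ho : ∀ i, G.op i ≠ i) (c : Face G → ℂ) (w : P → ℝ) (Φ : ℂ → ℂ → ℂ → ℂ → ℝ) :
    ∑ e, w e * Φ (c (Lf G e)) (c (Rf G e)) (c (Lf G (seifert G e))) (c (Rf G (seifert G e))) =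
    ∑ x : Cr G, (w (G.nxt.symm x.1) * Φ (c (Lf G (G.nxt.symm x.1))) (c (Rf G (G.op x.1))) (c (Rf G x.1)) (c (Rf G (G.op x.1))) +
      w (G.nxt.symm (G.op x.1)) * Φ (c (Lf G x.1)) (c (Lf G (G.nxt.symm x.1))) (c (Lf G x.1)) (c (Rf G x.1))) := by
  rw [sum_steps ho (fun e e' => w e * Φ (c (Lf G e)) (c (Rf G e)) (c (Lf G e')) (c (Rf G e')))]
  refine Finset.sum_congr rfl fun x _ => ?_
  rw [corner_E x.2 (ho _), ← corner_N x.2, ← corner_W x.2 (ho _), ← corner_S x.2]

omit [Fintype P] in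
/-- in each step one of the two faces stays -/
theorem step_or (ho : ∀ i, G.op i ≠ i) (e : P) : Lf G (seifert G e) = Lf G e ∨ Rf G (seifert G e) = Rf G e := by
  rw [seifert_apply]
  cases h : G.lf (G.nxt e) with
  | true =>
    right
    have h1 := corner_E h (ho _)
    rw [Equiv.symm_apply_apply] at h1
    exact h1.symm
  | false =>
    left
    have h1 : G.lf (G.op (G.nxt e)) = true := by rw [G.lf_op _ (ho _), h]; rfl
    have h2 := corner_W h1 (ho _)
    rw [G.op_op, Equiv.symm_apply_apply] at h2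
    exact h2

omit [Fintype P] in
theorem step_true (ho : ∀ i, G.op i ≠ i) {e : P} (h : G.lf (G.nxt e) = true) : Rf G (seifert G e) = Rf G e := by
  rw [seifert_apply]
  have h1 := corner_E h (ho _)
  rw [Equiv.symm_apply_apply] at h1
  exact h1.symm

omit [Fintype P] in
theorem step_false (ho : ∀ i, G.op i ≠ i) {e : P} (h : G.lf (G.nxt e) = false) : Lf G (seifert G e) = Lf G e := by
  rw [seifert_apply]
  have h1 : G.lf (G.op (G.nxt e)) = true := by rw [G.lf_op _ (ho _), h]; rfl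
  have h2 := corner_W h1 (ho _)
  rw [G.op_op, Equiv.symm_apply_apply] at h2
  exact h2

/-- telescoping along the Seifert circles -/
theorem sum_tel (ho : ∀ i, G.op i ≠ i) (c : Face G → ℂ) (Ψ : ℂ → ℂ → ℝ) :
    ∑ x : Cr G, ((Ψ (c (Rf G x.1)) (c (Rf G (G.op x.1))) - Ψ (c (Lf G (G.nxt.symm x.1))) (c (Rf G (G.op x.1)))) +
      (Ψ (c (Lf G x.1)) (c (Rf G x.1)) - Ψ (c (Lf G x.1)) (c (Lf G (G.nxt.symm x.1))))) = 0 := by
  have h := sum_col ho c (fun _ => 1) (fun l r l' r' => Ψ l' r' - Ψ l r)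
  simp only [one_mul] at h
  rw [← h, Finset.sum_sub_distrib, Equiv.sum_comp (seifert G) (fun e => Ψ (c (Lf G e)) (c (Rf G e))), sub_self]

/-- **The identities**: `u` the energy, `a` the area, `j` the coupling. -/
theorem identities (ho : ∀ i, G.op i ≠ i) (c : Face G → ℂ) (s : ℂ)
    (hc : ∀ x : Cr G, c (Rf G x.1) + s ^ 2 * c (Lf G (G.nxt.symm x.1)) = s * (c (Lf G x.1) + c (Rf G (G.op x.1))))
    (hs : normSq s ≠ 1) {u a j : ℝ} (hu : u = ∑ x : Cr G, normSq (c (Rf G x.1) - c (Lf G (G.nxt.symm x.1))))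
    (ha : a = ∑ x : Cr G, ((starRingEnd ℂ) (c (Lf G (G.nxt.symm x.1))) * c (Rf G x.1)).im)
    (hj : j = ∑ x : Cr G, ((c (Lf G x.1) + c (Rf G (G.op x.1))) * (starRingEnd ℂ) (c (Rf G x.1) - c (Lf G (G.nxt.symm x.1)))).im) :
    s.im * (2 * a) = s.re * u ∧ s.im * j = -((1 + normSq s) / 2 * u) := by
  have t1 := sum_tel ho c (fun l r => (l * (starRingEnd ℂ) r).re)
  have t2 := sum_tel ho c (fun l _ => normSq l)
  have t1' : ∑ x : Cr G, ((c (Lf G x.1) + c (Rf G (G.op x.1))) * (starRingEnd ℂ) (c (Rf G x.1) - c (Lf G (G.nxt.symm x.1)))).re = 0 := by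
    rw [← t1]
    refine Finset.sum_congr rfl fun x _ => ?_
    simp only [map_sub, mul_re, add_re, add_im, sub_re, sub_im, conj_re, conj_im]
    ring
  have t2' : ∑ x : Cr G, (normSq (c (Rf G x.1)) - normSq (c (Lf G (G.nxt.symm x.1)))) = 0 := by
    rw [← t2]
    refine Finset.sum_congr rfl fun x _ => ?_
    ring
  -- real and imaginary part of the relation
  have r1 : ∑ x : Cr G, ((c (Rf G x.1) + s ^ 2 * c (Lf G (G.nxt.symm x.1))) *
      (starRingEnd ℂ) (c (Rf G x.1) - c (Lf G (G.nxt.symm x.1)))).re =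
      ∑ x : Cr G, (s * ((c (Lf G x.1) + c (Rf G (G.op x.1))) * (starRingEnd ℂ) (c (Rf G x.1) - c (Lf G (G.nxt.symm x.1))))).re := by
    refine Finset.sum_congr rfl fun x _ => ?_
    rw [hc x, mul_assoc]
  have r2 : ∑ x : Cr G, ((c (Rf G x.1) + s ^ 2 * c (Lf G (G.nxt.symm x.1))) *
      (starRingEnd ℂ) (c (Rf G x.1) - c (Lf G (G.nxt.symm x.1)))).im =
      ∑ x : Cr G, (s * ((c (Lf G x.1) + c (Rf G (G.op x.1))) * (starRingEnd ℂ) (c (Rf G x.1) - c (Lf G (G.nxt.symm x.1))))).im := by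
    refine Finset.sum_congr rfl fun x _ => ?_
    rw [hc x, mul_assoc]
  have e1 : ∀ N S : ℂ, ((N + s ^ 2 * S) * (starRingEnd ℂ) (N - S)).re =
      (1 - (s ^ 2).re) / 2 * normSq (N - S) + (1 + (s ^ 2).re) / 2 * (normSq N - normSq S) + (s ^ 2).im * ((starRingEnd ℂ) S * N).im := by
    intro N S
    simp only [map_sub, mul_re, mul_im, add_re, add_im, sub_re, sub_im, conj_re, conj_im, normSq_apply]
    ring
  have e2 : ∀ N S : ℂ, ((N + s ^ 2 * S) * (starRingEnd ℂ) (N - S)).im =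
      -(1 + (s ^ 2).re) * ((starRingEnd ℂ) S * N).im - (s ^ 2).im / 2 * normSq (N - S) + (s ^ 2).im / 2 * (normSq N - normSq S) := by
    intro N S
    simp only [map_sub, mul_re, mul_im, add_re, add_im, sub_re, sub_im, conj_re, conj_im, normSq_apply]
    ring
  simp only [e1] at r1
  simp only [e2] at r2
  have e3 : ∀ Q : ℂ, (s * Q).re = s.re * Q.re - s.im * Q.im := fun Q => mul_re s Q
  have e4 : ∀ Q : ℂ, (s * Q).im = s.re * Q.im + s.im * Q.re := fun Q => mul_im s Q
  simp only [e3] at r1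
  simp only [e4] at r2
  rw [Finset.sum_add_distrib, Finset.sum_add_distrib, Finset.sum_sub_distrib, ← Finset.mul_sum, ← Finset.mul_sum, ← Finset.mul_sum,
    ← Finset.mul_sum, ← Finset.mul_sum, t1', t2', ← hu, ← ha, ← hj] at r1
  rw [Finset.sum_add_distrib, Finset.sum_sub_distrib, Finset.sum_add_distrib, ← Finset.mul_sum, ← Finset.mul_sum, ← Finset.mul_sum,
    ← Finset.mul_sum, ← Finset.mul_sum, t1', t2', ← hu, ← ha, ← hj] at r2
  have s1 : (s ^ 2).re = s.re ^ 2 - s.im ^ 2 := by rw [pow_two, mul_re]; ring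
  have s2 : (s ^ 2).im = 2 * s.re * s.im := by rw [pow_two, mul_im]; ring
  rw [s1, s2] at r1 r2
  have hn : normSq s = s.re ^ 2 + s.im ^ 2 := by rw [normSq_apply]; ring
  rw [hn] at hs ⊢
  have k1 : (1 - (s.re ^ 2 + s.im ^ 2)) * (s.re * u - s.im * (2 * a)) = 0 := by
    linear_combination 2 * s.re * r1 + 2 * s.im * r2
  have k2 : s.im * (2 * a) = s.re * u := by
    rcases mul_eq_zero.1 k1 with h | h
    · exact absurd (by linarith) hs
    · linarith
  refine ⟨k2, ?_⟩
  linear_combination r1 - s.re * k2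

end Pool.Agent.Helper59.V8
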