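import Pool.Agent.Helper59.V8.Main
import Pool.Agent.Helper43.V6.Bridge

/-!
# MP_ea8a26, project V8: the criterion with the weights of the result file
-/

set_option autoImplicit false

namespace Pool.Agent.Helper59.V8

open Polynomial Pool.Agent.Helper85.Exp Pool.Agent.Helper60.EV2 Pool.Agent.Helper43.Pln Pool.Agent.Helper43.V6

/-- **The criterion.** -/
theorem main_weight {P : Type} [Fintype P] {G : Sh P} (hG : Plane G) {α : ℝ} (h0 : 0 ≤ α) (h1 : α ≤ 1)
    (hw : ∀ p, weight α G p + weight α G (G.op p) ≤ √3 + 9 / 10 * α) {nab : Dg G → ℤ[X]} (hn : Cs nab) :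
    LogConcave G nab ∧ ∀ z : ℂ, aeval z (nab (allPos G)) = 0 → 3 * z.re ^ 2 ≤ z.im ^ 2 := by
  have h := main hG nab hn h0 h1 (fun i => by
    have h2 := hw i
    rw [← wt_eq hG.cross, ← wt_eq hG.cross] at h2
    exact h2)
  exact ⟨h.2, h.1⟩

end Pool.Agent.Helper59.V8
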