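import Pool.Agent.Helper59.V8.Main

/-!
# MP_ea8a26, project V8: the zeros for diagrams whose Seifert circles meet at most `N` crossings
-/

set_option autoImplicit false

namespace Pool.Agent.Helper59.V8

open Complex Finset Polynomial Pool.Agent.Helper85.Exp Pool.Agent.Helper60.EV2 Pool.Agent.Helper2.PD Pool.Agent.Helper16.PD Pool.Agent.Helper43.Pln

variable {P : Type} [Fintype P] {G : Sh P}

theorem cot_mono {n N : ℕ} (hn : 1 ≤ n) (hN : 3 ≤ N) (h : n ≤ N) : bet n ≤ bet N := by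
  have hb := (bet_pos_of hN).1
  rcases Nat.lt_or_ge n 3 with h3 | h3
  · have : n = 1 ∨ n = 2 := by omega
    have h0 : bet n = 0 := by
      unfold bet
      rw [Real.cot_eq_cos_div_sin]
      rcases this with rfl | rfl <;> simp
    rw [h0]
    exact hb.le
  · obtain ⟨b1, t1, e1⟩ := bet_pos_of h3
    obtain ⟨b2, t2, e2⟩ := bet_pos_of hN
    have hn0 : (0 : ℝ) < n := by exact_mod_cast (by omega : 0 < n)
    have hN0 : (0 : ℝ) < N := by exact_mod_cast (by omega : 0 < N)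
    have h4 : Real.pi / N ≤ Real.pi / n := by
      apply div_le_div_of_nonneg_left Real.pi_pos.le hn0
      exact_mod_cast h
    have h5 : Real.pi / n < Real.pi / 2 := by
      apply div_lt_div_of_pos_left Real.pi_pos (by norm_num)
      exact_mod_cast (by omega : 2 < n)
    have h6 : Real.tan (Real.pi / N) ≤ Real.tan (Real.pi / n) := by
      rcases h4.lt_or_eq with h7 | h7
      · exact (Real.tan_lt_tan_of_lt_of_lt_pi_div_two (by linarith [div_pos Real.pi_pos hN0, Real.pi_pos]) h5 h7).le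
      · rw [h7]
    have h8 : 2 * Real.tan (Real.pi / n) * bet n = 2 * Real.tan (Real.pi / N) * bet N := by rw [e1, e2]
    have h9 : 2 * Real.tan (Real.pi / N) * bet n ≤ 2 * Real.tan (Real.pi / N) * bet N := by
      rw [← h8]
      have := mul_le_mul_of_nonneg_right h6 b1.le
      linarith
    exact le_of_mul_le_mul_left h9 (by positivity)

/-- **The lens** for diagrams whose Seifert circles meet at most `N` crossings. -/
theorem lens_N (hG : Plane G) (nab : Dg G → ℤ[X]) (hn : Cs nab) {N : ℕ} (hN : 3 ≤ N)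
    (hper : ∀ e, Function.minimalPeriod (seifert G) e ≤ N) {s : ℂ} (hs0 : s ≠ 0) (hs1 : normSq s ≠ 1)
    (hz : aeval (s⁻¹ - s) (nab (allPos G)) = 0) : (1 + normSq s) / 2 + |s.re| ≤ Real.cot (Real.pi / N) * |s.im| := by
  have h := lens hG nab hn hs0 hs1 hz (α := 1) (B := Real.cot (Real.pi / N)) zero_le_one (fun _ => bet N) (fun _ => rfl)
    (fun c _ => by
      refine ⟨fun e => ?_, fun x _ => ?_⟩
      · have h1 := cycle_bound (seifert G) (fun e => c (Lf G e)) (fun e => c (Rf G e)) (fun e => by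
          rcases step_or hG.cross e with h | h
          · left
            show c (Lf G (seifert G e)) = c (Lf G e)
            rw [h]
          · right
            show c (Rf G (seifert G e)) = c (Rf G e)
            rw [h]) e
        rw [one_mul]
        refine h1.trans (mul_le_mul_of_nonneg_right (cot_mono (period_pos _ e) hN (hper e)) ?_)
        exact Finset.sum_nonneg fun k _ => fu_nonneg _ _ _ _
      · unfold bet
        linarith)
  rw [one_mul] at h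
  exact h

theorem x_le {X Y n : ℝ} (hn : n = X ^ 2 + Y ^ 2) : X ≤ (1 + n) / 2 := by
  nlinarith [sq_nonneg (X - 1), sq_nonneg Y]

theorem z_low {X Y n k : ℝ} (hn : n = X ^ 2 + Y ^ 2) (hn0 : 0 < n) (hX : 0 ≤ X) (hM : (1 + n) / 2 ≤ k * Y - X) :
    4 * n ^ 2 ≤ k ^ 2 * (X ^ 2 * (1 - n) ^ 2 + Y ^ 2 * (1 + n) ^ 2) := by
  have h5 : ((1 + n) / 2) ^ 2 ≤ (k * Y) ^ 2 := pow_le_pow_left₀ (by positivity) (by linarith) 2
  have h6 : n ≤ ((1 + n) / 2) ^ 2 := by nlinarith [sq_nonneg (n - 1)]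
  have h7 : n ≤ k ^ 2 * Y ^ 2 := by
    have : (k * Y) ^ 2 = k ^ 2 * Y ^ 2 := by ring
    linarith
  have h8 : 4 * n ≤ (1 + n) ^ 2 := by nlinarith [sq_nonneg (n - 1)]
  have h9 : 4 * n * n ≤ (1 + n) ^ 2 * (k ^ 2 * Y ^ 2) := mul_le_mul h8 h7 hn0.le (by positivity)
  have h10 : 0 ≤ k ^ 2 * (X ^ 2 * (1 - n) ^ 2) := by positivity
  have e : k ^ 2 * (X ^ 2 * (1 - n) ^ 2 + Y ^ 2 * (1 + n) ^ 2) = k ^ 2 * (X ^ 2 * (1 - n) ^ 2) + (1 + n) ^ 2 * (k ^ 2 * Y ^ 2) := by ring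
  rw [e]
  have e2 : 4 * n ^ 2 = 4 * n * n := by ring
  linarith

theorem z_high {X Y n k : ℝ} (hn : n = X ^ 2 + Y ^ 2) (hn0 : 0 < n) (hX : 0 ≤ X) (hk : 0 < k) (hY : 0 ≤ Y) (hM : (1 + n) / 2 ≤ k * Y - X) :
    X ^ 2 * (1 - n) ^ 2 + Y ^ 2 * (1 + n) ^ 2 ≤ 4 * k ^ 2 * n ^ 2 := by
  have h5 : X ^ 2 * (1 - n) ^ 2 + Y ^ 2 * (1 + n) ^ 2 = n * (1 + n) ^ 2 - 4 * n * X ^ 2 := by
    have : Y ^ 2 = n - X ^ 2 := by linarith
    rw [this]
    ring
  rw [h5]
  have h6 : (1 + n) / 2 + X ≤ k * Y := by linarith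
  have h7 := x_le hn
  have h8 : (1 + n) / 2 - X ≤ k * Y := by linarith
  have h9 : ((1 + n) / 2 - X) * ((1 + n) / 2 + X) ≤ (k * Y) * (k * Y) := mul_le_mul h8 h6 (by positivity) (by positivity)
  have h10 : Y ^ 2 ≤ n := by linarith [sq_nonneg X]
  have h11 : k ^ 2 * Y ^ 2 ≤ k ^ 2 * n := mul_le_mul_of_nonneg_left h10 (by positivity)
  have h12 : (1 + n) ^ 2 / 4 - X ^ 2 ≤ k ^ 2 * n := by
    have e3 : ((1 + n) / 2 - X) * ((1 + n) / 2 + X) = (1 + n) ^ 2 / 4 - X ^ 2 := by ring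
    have e4 : (k * Y) * (k * Y) = k ^ 2 * Y ^ 2 := by ring
    rw [e3, e4] at h9
    linarith
  have h13 := mul_le_mul_of_nonneg_left h12 (by positivity : 0 ≤ 4 * n)
  have e5 : 4 * n * ((1 + n) ^ 2 / 4 - X ^ 2) = n * (1 + n) ^ 2 - 4 * n * X ^ 2 := by ring
  have e6 : 4 * n * (k ^ 2 * n) = 4 * k ^ 2 * n ^ 2 := by ring
  rw [e5, e6] at h13
  exact h13

theorem z_arg {X Y n k : ℝ} (hn : n = X ^ 2 + Y ^ 2) (hn0 : 0 < n) (hX : 0 ≤ X) (hM : (1 + n) / 2 ≤ k * Y - X) :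
    2 * (X * |1 - n|) ≤ k * (Y * (1 + n)) := by
  have h5 : |1 - n| ≤ 1 + n := by
    rw [abs_le]
    constructor <;> linarith
  have h6 := x_le hn
  have h7 : 2 * X ≤ k * Y := by linarith
  have h8 : X * |1 - n| ≤ X * (1 + n) := mul_le_mul_of_nonneg_left h5 hX
  have h9 : 2 * X * (1 + n) ≤ k * Y * (1 + n) := mul_le_mul_of_nonneg_right h7 (by positivity)
  linarith

/-- **The zeros.** -/
theorem zeros_N (hG : Plane G) (nab : Dg G → ℤ[X]) (hn : Cs nab) {N : ℕ} (hN : 3 ≤ N)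
    (hper : ∀ e, Function.minimalPeriod (seifert G) e ≤ N) {k : ℝ} (hk : k = Real.cot (Real.pi / N)) (z : ℂ)
    (hz : aeval z (nab (allPos G)) = 0) :
    (z.re = 0 ∧ normSq z ≤ 4) ∨ (4 ≤ k ^ 2 * normSq z ∧ normSq z ≤ 4 * k ^ 2 ∧ 2 * |z.re| ≤ k * |z.im|) := by
  obtain ⟨s, hs0, rfl⟩ := exists_s z
  obtain ⟨x, hx⟩ : ∃ x, x = s.re := ⟨_, rfl⟩
  obtain ⟨y, hy⟩ : ∃ y, y = s.im := ⟨_, rfl⟩
  obtain ⟨n, hnn⟩ : ∃ n, n = normSq s := ⟨_, rfl⟩
  have hnx : n = x ^ 2 + y ^ 2 := by rw [hnn, hx, hy, normSq_apply]; ring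
  have hn0 : 0 < n := by rw [hnn]; exact normSq_pos.2 hs0
  have h1 : (s⁻¹ - s).re = x * (1 - n) / n := by
    rw [sub_re, inv_re, hx, hnn]
    have := (normSq_pos.2 hs0).ne'
    field_simp
  have h2 : (s⁻¹ - s).im = -(y * (1 + n)) / n := by
    rw [sub_im, inv_im, hy, hnn]
    have := (normSq_pos.2 hs0).ne'
    field_simp
    ring
  have h3 : normSq (s⁻¹ - s) = (x ^ 2 * (1 - n) ^ 2 + y ^ 2 * (1 + n) ^ 2) / n ^ 2 := by
    rw [normSq_apply, h1, h2]
    field_simp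
  rcases eq_or_ne n 1 with h | h
  · left
    refine ⟨by rw [h1, h]; simp, ?_⟩
    rw [h3, h]
    have h4 : y ^ 2 ≤ 1 := by nlinarith [sq_nonneg x]
    have h5 : (x ^ 2 * (1 - 1) ^ 2 + y ^ 2 * (1 + 1) ^ 2) / (1 : ℝ) ^ 2 = 4 * y ^ 2 := by ring
    rw [h5]
    linarith
  · right
    have hl := lens_N hG nab hn hN hper hs0 (by rw [← hnn]; exact h) hz
    rw [← hnn, ← hx, ← hy, ← hk] at hl
    have hax := abs_nonneg x
    have hay := abs_nonneg y
    have hkp : 0 < k := by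
      have h5 := (bet_pos_of hN).1
      unfold bet at h5
      rw [hk]
      linarith
    have e1 : x ^ 2 = |x| ^ 2 := (sq_abs x).symm
    have e2 : y ^ 2 = |y| ^ 2 := (sq_abs y).symm
    obtain ⟨X, hX⟩ : ∃ X, X = |x| := ⟨_, rfl⟩
    obtain ⟨Y, hY⟩ : ∃ Y, Y = |y| := ⟨_, rfl⟩
    rw [← hX, ← hY] at hl
    rw [← hX] at hax e1
    rw [← hY] at hay e2
    rw [e1, e2] at hnx h3
    have hM : (1 + n) / 2 ≤ k * Y - X := by linarith
    have hM0 : 0 < (1 + n) / 2 := by positivity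
    refine ⟨?_, ?_, ?_⟩
    · rw [h3, mul_div_assoc', le_div_iff₀ (by positivity)]
      exact z_low hnx hn0 hax hM
    · rw [h3, div_le_iff₀ (by positivity)]
      exact z_high hnx hn0 hax hkp hay hM
    · rw [h1, h2, abs_div, abs_div, abs_mul, abs_neg, abs_mul, abs_of_pos hn0, ← hX, ← hY, abs_of_pos (by positivity : 0 < 1 + n)]
      rw [mul_div_assoc', mul_div_assoc', div_le_div_iff_of_pos_right hn0]
      exact z_arg hnx hn0 hax hM

end Pool.Agent.Helper59.V8
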